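import Pool.Agent.Q120.RZ.Stm

/-! Job RZ-AN: Dirichlet series with small partial sums. -/

set_option autoImplicit false

namespace Pool.Agent.Q247.RZ

open MeasureTheory Filter Pool.Agent.Q120.RZ
open Finset (Icc)
open scoped Topology

theorem t_AN : J_AN := by
  intro a θ hθ0 hθ1 ha hsum
  let f : ℝ → ℂ := fun t => ∑ n ∈ Icc 1 ⌊t⌋₊, a n
  have hf0 : ∀ t : ℝ, t < 1 → f t = 0 := by
    intro t ht
    show ∑ n ∈ Icc 1 ⌊t⌋₊, a n = 0
    rw [Nat.floor_eq_zero.2 ht]
    simp
  have hloc : LocallyIntegrableOn f (Set.Ioi 0) := by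
    have h1 : LocallyIntegrableOn (fun _ : ℝ => (1 : ℂ)) (Set.Ici (0 : ℝ)) :=
      (locallyIntegrable_const (1 : ℂ)).locallyIntegrableOn _
    have h2 := locallyIntegrableOn_mul_sum_Icc (m := 1) a le_rfl h1
    simp only [one_mul] at h2
    exact h2.mono_set Set.Ioi_subset_Ici_self
  refine ⟨fun s => s * mellin f (-s), ?_, ?_⟩
  · intro s hs
    have hs' : θ < s.re := hs
    set ε := (s.re - θ) / 2 with hε
    have hε0 : 0 < ε := by rw [hε]; linarith
    obtain ⟨C, hC⟩ := hsum ε hε0
    have hC0 : 0 ≤ C := by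
      have := (norm_nonneg _).trans (hC 1 le_rfl)
      simpa using this
    have htop : f =O[atTop] fun x : ℝ => x ^ (-(-(θ + ε))) := by
      apply Asymptotics.IsBigO.of_bound C
      filter_upwards [eventually_ge_atTop (1 : ℝ)] with t ht
      have h1 : 1 ≤ ⌊t⌋₊ := (Nat.one_le_floor_iff t).2 ht
      have h2 := hC ⌊t⌋₊ h1
      rw [neg_neg, Real.norm_of_nonneg (Real.rpow_nonneg (by linarith) _)]
      refine h2.trans (mul_le_mul_of_nonneg_left ?_ hC0)
      exact Real.rpow_le_rpow (Nat.cast_nonneg _) (Nat.floor_le (by linarith)) (by linarith)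
    have hbot : f =O[𝓝[>] 0] fun x : ℝ => x ^ (-(-s.re - 1)) := by
      have h1 : f =ᶠ[𝓝[>] 0] fun _ => (0 : ℂ) := by
        have h2 : Set.Iio (1 : ℝ) ∈ 𝓝[>] (0 : ℝ) :=
          mem_nhdsWithin_of_mem_nhds (Iio_mem_nhds one_pos)
        filter_upwards [h2] with t ht using hf0 t ht
      exact h1.trans_isBigO (Asymptotics.isBigO_zero _ _)
    have hd : DifferentiableAt ℂ (mellin f) (-s) :=
      mellin_differentiableAt_of_isBigO_rpow hloc htop
        (by rw [Complex.neg_re]; linarith) hbot (by rw [Complex.neg_re]; linarith)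
    have hneg : DifferentiableAt ℂ (fun s : ℂ => -s) s := differentiableAt_id.neg
    have hd' : DifferentiableAt ℂ (fun s : ℂ => mellin f (-s)) s :=
      DifferentiableAt.comp (g := mellin f) (f := fun s : ℂ => -s) s hd hneg
    have hid : DifferentiableAt ℂ (fun s : ℂ => s) s := differentiableAt_id
    exact (hid.mul hd').differentiableWithinAt
  · intro s hs
    have hS : LSeriesSummable a s := LSeriesSummable_of_bounded_of_one_lt_re (m := 1) (fun n _ => ha n) hs
    have hO : (fun n : ℕ => ∑ k ∈ Icc 1 n, a k) =O[atTop] fun n : ℕ => (n : ℝ) ^ (1 : ℝ) := by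
      apply Asymptotics.IsBigO.of_bound 1
      filter_upwards with n
      rw [Real.rpow_one, one_mul, Real.norm_of_nonneg (Nat.cast_nonneg _)]
      refine (norm_sum_le _ _).trans ((Finset.sum_le_sum fun k _ => ha k).trans ?_)
      simp
    rw [LSeries_eq_mul_integral a zero_le_one hs hS hO]
    show s * mellin f (-s) = _
    congr 1
    unfold mellin
    have h1 : ∫ t in Set.Ioi (0 : ℝ), (t : ℂ) ^ (-s - 1) • f t = ∫ t in Set.Ici (1 : ℝ), (t : ℂ) ^ (-s - 1) • f t := by
      apply setIntegral_eq_of_subset_of_forall_diff_eq_zero measurableSet_Ioi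
      · intro t ht
        exact lt_of_lt_of_le one_pos (Set.mem_Ici.1 ht)
      · intro t ht
        rw [hf0 t (not_le.1 ht.2), smul_zero]
    rw [h1, integral_Ici_eq_integral_Ioi]
    refine setIntegral_congr_fun measurableSet_Ioi (fun t _ => ?_)
    show (t : ℂ) ^ (-s - 1) • f t = (∑ k ∈ Icc 1 ⌊t⌋₊, a k) * (t : ℂ) ^ (-(s + 1))
    rw [smul_eq_mul, mul_comm]
    congr 2
    ring

end Pool.Agent.Q247.RZ
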